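import Pool.Agent.Run7.h528.MB.Wrap

/-!
The movable cone conjecture for abelian groups of rank `m - k` with `k` invariant blocks of divisor
classes.
-/

set_option autoImplicit false

open FF Pool.Agent.W602.GT Pool.Agent.Y172 Pool.Agent.R887 Pool.Agent.N110 Pool.Agent.N110.CC
open Run7.h528.MB

/-- Let `X` be a normal projective variety of dimension `n ≥ 1`, with generic point `y`, and let the
vectors `c P` be the classes of the prime divisors in `N¹(X) = ℤ ^ ρ`. Let `𝒮` be a group of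
pseudo-automorphisms of `X` (if `X` is smooth and `K_X ≡ 0` every birational self-map is one), given
by the automorphisms `ψ = f^*` of the function field. Let `𝒮` contain a group `ℤ ^ r`, `r ≥ 1`, of
maps `f_v` with `φ v = f_v^*`, such that `f_v` has positive entropy (the first dynamical degree is
greater than `1`) for all `v ≠ 0`.

Let `Λ` be a subgroup of `N¹(X)` of rank `m`, with the basis `s j`, such that the pull backs by the
elements of `𝒮` map `Λ` into itself (for instance `Λ = N¹(X)`), and let `Λ` contain with finite index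
a direct sum `Λ_1 ⊕ … ⊕ Λ_k` of groups of rank at least `2` such that `f_v^*` maps each `Λ_i` into
itself, with `r = m - k`. (The classes `u j` are a basis of the sum, and `u j` is in `Λ_i` for
`i = β j`.) Suppose that `Λ ⊗ ℝ` contains a class, with coordinates `t₀`, which is big (in the
interior of the effective cone) and in the closed movable cone, for instance an ample class. Identify
`Λ ⊗ ℝ` with `ℝ ^ m`, and let `D` be the closed movable cone of `X`.

Then the cone `D ∩ (Λ ⊗ ℝ)` is equal to the intersection of the closure of `Eff(X)` with `Λ ⊗ ℝ`, and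
it is simplicial, generated by a basis `b` of `Λ ⊗ ℝ` with `b j` in `Λ_i ⊗ ℝ` for `i = β j`. Let `D⁺`
be the cone generated by the rational classes in `D ∩ (Λ ⊗ ℝ)`. A class is in `D⁺` if and only if its
component in `Λ_i ⊗ ℝ` is zero or a combination of the `b j` in `Λ_i ⊗ ℝ` with positive coefficients,
for all `i`. The action of `𝒮` on `D⁺` has a rational polyhedral fundamental domain. Moreover
`D ∩ Eff(X) ∩ (Λ ⊗ ℝ) ⊆ D⁺`, with equality if and only if every `Λ_i ⊗ ℝ` contains a nonzero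
effective class, and in this case the action of `𝒮` on the cone `D ∩ Eff(X) ∩ (Λ ⊗ ℝ)` has a rational
polyhedral fundamental domain. -/
theorem Pool.Agent.Results.MP_e39d36_ag.InvariantBlocks.result
    {K : Type} [Field K] [Algebra ℂ K] {N n r k m ρ : ℕ} {y : Fin (N + 1) → K} (hy : NormalModel y)
    (hn : Algebra.trdeg ℂ K = n) (hn0 : 0 < n) (hr : 0 < r)
    {c : Place ℂ K → Fin ρ → ℤ} (hc : PicardBasis y c)
    {𝒮 : Subgroup (K ≃ₐ[ℂ] K)} (h𝒮 : ∀ ψ ∈ 𝒮, PseudoAut ψ y)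
    {φ : (Fin r → ℤ) → (K ≃ₐ[ℂ] K)} (hφ : ∀ u v, φ (u + v) = φ u * φ v) (hφ𝒮 : ∀ v, φ v ∈ 𝒮)
    (hent : ∀ v, v ≠ 0 → 1 < dynDegree (φ v) y n 1)
    {s : Fin m → Fin ρ → ℤ} (hli : LinearIndependent ℝ (fun j i => (s j i : ℝ)))
    (hst : ∀ ψ ∈ 𝒮, PreservesSpan y c s ψ)
    {u : Fin m → Fin ρ → ℤ} (hu : LinearIndependent ℝ (fun j i => (u j i : ℝ)))
    (hus : ∀ j, ∃ a : Fin m → ℤ, (fun i => (u j i : ℝ)) = comb s (fun l => (a l : ℝ)))
    {β : Fin m → Fin k} (hβ : ∀ i, ∃ j j', j ≠ j' ∧ β j = i ∧ β j' = i) (hm : m = r + k)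
    (hbl : ∀ v, PreservesBlocks y c u β (φ v)) {t₀ : Fin m → ℝ}
    (ht₀ : comb s t₀ ∈ interior (effCone y c)) (ht₀' : comb s t₀ ∈ movCone y c) :
    (∀ t, comb s t ∈ movCone y c ↔ comb s t ∈ closure (effCone y c)) ∧
    (∃ b : Fin m → Fin m → ℝ, LinearIndependent ℝ b ∧
      (∀ j, ∃ a : Fin m → ℝ, (∀ l, β l ≠ β j → a l = 0) ∧ comb s (b j) = comb u a) ∧
      (∀ t, comb s t ∈ movCone y c ↔ ∃ a : Fin m → ℝ, (∀ j, 0 ≤ a j) ∧ t = ∑ j, a j • b j) ∧
      ∀ t, t ∈ ratHull {t | comb s t ∈ movCone y c} ↔ ∃ a : Fin m → ℝ, (∀ j, 0 ≤ a j) ∧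
        (∀ j j', β j = β j' → a j = 0 → a j' = 0) ∧ t = ∑ j, a j • b j) ∧
    HasFundDomain {T | ∃ ψ ∈ 𝒮, IsPullBackOn y c s ψ T} (ratHull {t | comb s t ∈ movCone y c}) ∧
    {t | comb s t ∈ movCone y c ∩ effCone y c} ⊆ ratHull {t | comb s t ∈ movCone y c} ∧
    ((∀ i, ∃ a : Fin m → ℝ, a ≠ 0 ∧ (∀ l, β l ≠ i → a l = 0) ∧ comb u a ∈ effCone y c) ↔
      {t | comb s t ∈ movCone y c ∩ effCone y c} = ratHull {t | comb s t ∈ movCone y c}) ∧
    ((∀ i, ∃ a : Fin m → ℝ, a ≠ 0 ∧ (∀ l, β l ≠ i → a l = 0) ∧ comb u a ∈ effCone y c) →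
      HasFundDomain {T | ∃ ψ ∈ 𝒮, IsPullBackOn y c s ψ T}
        {t | comb s t ∈ movCone y c ∩ effCone y c}) := by
  have h := blocks_mov hy hn hn0 hr hc h𝒮 hφ hφ𝒮 hent hli hst hu hus hβ hm hbl ht₀ ht₀'
  exact ⟨h.eq, h.desc, h.fd, h.sub, h.iff, h.fde⟩
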