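import Pool.Agent.Results.MP_89a3f8_ag.TerminationOfFlips
import Pool.Agent.Run7.h530.FI.Main

/-!
# The movable cone conjecture for toroidal covers of products of projective spaces and their images

Let `F i` be a form of degree `d i` in `n i + 1` variables whose zero set in the projective
`n i`-space is a smooth hypersurface, and let `K` be the function field of an abelian cover `Y` of the
product of the projective `n i`-spaces which is branched along the hypersurfaces `F i = 0` of the
factors: `K` is generated by the affine coordinates and by roots `z j`,
`z j ^ (m j) = ∏ i, (F i (x i) / x i 0 ^ (d i)) ^ (a j i)`. Equivalently, `Y` is a quotient of the product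
of the cyclic hypersurfaces `H i`, `w ^ (d i) = F i`, by a group of diagonal automorphisms. Let `X` be a
toroidal modification of `Y`, given by `fan` (the definitions are those of the starting result
`MP_89a3f8_ag.TerminationOfFlips`).

**The varieties `X_0`.** Let `X_0` be a normal projective variety with a generically finite morphism
`X → X_0`, for instance `X_0 = X` or the quotient of `X` by ANY finite group of automorphisms
(permutations of equal factors, automorphisms of the forms, ...). Its function field `K0` is a subfield
of `K` and `K / K0` is finite. On `X_0` there are `ℚ`-Cartier divisors `D 1, ..., D p`; `δ i P` is the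
coefficient of the pull back of `D i` at the prime divisor `P` over `X_0`. We assume that the pull back
of `D i` to the models of `K` is the sum of a toroidal divisor on `X` and of the divisor of a function
`g i`, that the `D i` are independent (if `∑ i, μ i * D i` and its negative are both linearly equivalent
to effective divisors then `μ = 0`), and that some combination with the coefficients `μ0` is ample (for
all `ν` some `k * μ0 + ν`, `k ≥ 1`, is base point free).

If all `n i ≥ 3` and `X_0` is `ℚ`-factorial, then the `D i` can be chosen as a basis of
`N¹(X_0) ⊗ ℚ = Pic(X_0) ⊗ ℚ`, since all divisors on `X` are toroidal up to linear equivalence and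
multiples (Lefschetz; this remark is not used and not proved here). Then the space `ℝ ^ p` of the
combinations of the `D i` is `N¹(X_0) ⊗ ℝ`, and the cones below are the cones of `X_0`.

**Calabi-Yau varieties.** The theorem does not use that `K_X + Δ` is trivial. If `d i = n i + 2` the
`H i` are Calabi-Yau manifolds; for a group `G` of diagonal automorphisms which preserves the volume form
of the product, `Y = (H 1 × ... × H r) / G` has trivial canonical class and canonical singularities,
and its crepant toroidal modifications `X` (the `ℚ`-factorial ones, with terminal singularities, or the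
crepant toroidal resolutions, if they exist) have trivial canonical class. This generalizes the
construction of Borcea and Voisin to products of several factors of any dimensions `n i ≥ 3`. The
quotients `X_0 = X / Γ` by finite groups `Γ`, with the branch divisor `Δ`, are klt Calabi-Yau pairs.

**The movable cone.** Let `𝒬` be the set of the prime divisors on `X_0`. The `D i` are `ℚ`-Cartier and
`X_0` is normal, so a function is a section of a combination of the `D i` if its orders at the prime
divisors on `X_0` are large enough (`hsec`). `freeCone N δ 𝒬` is the closed movable cone. Let `𝒲` be a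
group of pseudo-automorphisms of `X_0`, for instance `PsAut(X_0)` or `PsAut(X_0, Δ)`, given by the
automorphisms `φ = f^*` of the function field `K0`: they permute the prime divisors on `X_0`. Suppose
that the pull backs of the `D i` are combinations of the `D i` up to linear equivalence and multiples,
with bounded denominators (`h𝒲`, `hden'`; this holds for all pseudo-automorphisms if `X_0` is
`ℚ`-factorial and the `D i` are a basis of `Pic(X_0) ⊗ ℚ`, because they act on the class group). Then the
closed movable cone is generated by the classes of finitely many movable divisors, it is contained in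
the effective cone, and the action of `𝒲` on `Mov ∩ Eff` has a rational polyhedral fundamental domain.
Moreover only finitely many cones arise as closed cones of the combinations without base points at
the centres of the elements of a set of prime divisors over `X_0` (the nef cone and the movable cone
are two of them).

**The proof.** The multigraded ring of the sections of the combinations of the toroidal divisors on `X`
is finitely generated (starting tree, `Q57.CX`). The ring of the sections of the combinations of the
`D i` on `X_0` is finitely generated too, since the former ring is integral over it (`fg_desc`). Let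
`s b` be finitely many homogeneous generators. A combination `∑ i, μ i * D i` has a section which does
not vanish at the centre of `P` if and only if `μ` is a sum of degrees of generators `s b` which do not
vanish there. So the cones of the combinations without base points at the centres of the `P` in a set
are intersections of finitely many cones from a finite list of cones generated by integral vectors,
and rational polyhedral (`gcone_inter`, `cone_eq`). They are strictly convex (Gordan), and a Dirichlet
domain (starting tree, `Y167`) is a fundamental domain.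
-/

set_option autoImplicit false

open FF MvPolynomial Pool.Agent.W602.GT Run7.h530.FI
open Pool.Agent.Y167 (cone)
open Pool.Agent.Results.MP_89a3f8_ag.TerminationOfFlips (Smooth Admissible InCone IsFan affine
  coefficient)

namespace Pool.Agent.Results.MP_e39d36_ag.ToroidalCovers

/-- **The movable cone conjecture.** Let `X_0` be the image under a generically finite morphism of
a toroidal modification `X` of an abelian cover of a product of projective spaces branched along smooth
hypersurfaces of the factors, and let the `D i` be independent `ℚ`-Cartier divisors on `X_0`, some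
combination of which is ample, whose pull backs to `X` are toroidal up to linear equivalence. Let `𝒬`
be the set of the prime divisors on `X_0` and `𝒲` a group of pseudo-automorphisms of `X_0` which act on
the combinations of the `D i` modulo linear equivalence and multiples, with bounded denominators. Then
(1) only finitely many cones arise as closed cones of the combinations of the `D i` without base points
at the centres of the elements of a nonempty set of prime divisors over `X_0`;
(2) the closed movable cone is generated by the classes of finitely many movable divisors;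
(3) it is contained in the effective cone;
(4) the action of `𝒲` on the cone `Mov ∩ Eff` has a rational polyhedral fundamental domain. -/
theorem result (r N R p : ℕ) (n d : Fin r → ℕ) (hr : 1 ≤ r) (hn : ∀ i, 1 ≤ n i)
    (hd : ∀ i, 1 ≤ d i) (hN : N = ∑ i, n i)
    (F : ∀ i, MvPolynomial (Fin (n i + 1)) ℂ) (hF : ∀ i, (F i).IsHomogeneous (d i))
    (hs : ∀ i, Smooth (F i)) (m : Fin R → ℕ) (hm : ∀ j, 1 ≤ m j) (a : Fin R → Fin r → ℕ)
    (hdiv : ∀ j i, m j ∣ a j i * d i)
    (K : Type) [Field K] [Algebra ℂ K] (x : ∀ i, Fin (n i + 1) → K) (hx0 : ∀ i, x i 0 ≠ 0)
    (hbas : IsTranscendenceBasis ℂ (affine x)) (z : Fin R → K)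
    (hz : ∀ j, z j ^ m j = ∏ i, (aeval (x i) (F i) / x i 0 ^ d i) ^ a j i)
    (hgen : IntermediateField.adjoin ℂ (Set.range (affine x) ∪ Set.range z) = ⊤)
    (fan : Finset (Finset (Fin r → ℕ))) (hfan : IsFan m a fan)
    (c : Fin p → (Fin r → ℕ) → ℚ) (hc0 : ∀ i, c i 0 = 0) (β : Fin p → Fin r → ℤ)
    (u : Finset (Fin r → ℕ) → Fin p → Fin r → ℚ)
    (hlin : ∀ σ ∈ fan, ∀ i v, Admissible m a v → InCone σ v → - c i v = ∑ k, u σ i k * v k)
    (K0 : Type) [Field K0] [Algebra ℂ K0] [Algebra K0 K] [IsScalarTower ℂ K0 K]
    [FiniteDimensional K0 K] (δ : Fin p → Place ℂ K0 → ℚ) (M : ℕ) (hM : 1 ≤ M)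
    (hint : ∀ i P, Divisorial N P → ∃ b : ℤ, (M : ℚ) * δ i P = b)
    (g : Fin p → K) (hg : ∀ i, g i ≠ 0)
    (hδ : ∀ (i : Fin p) (Q : Place ℂ K) (P : Place ℂ K0) (e : ℕ), Over Q P e → Divisorial N Q →
      (e : ℚ) * δ i P = coefficient F d x (c i) (β i) Q + Q.ord (g i))
    (hind : ∀ μ : Fin p → ℤ, IsEff N δ μ → IsEff N δ (-μ) → μ = 0)
    (hamp : ∃ μ0 : Fin p → ℤ, ∀ ν : Fin p → ℤ, ∃ k : ℕ, 1 ≤ k ∧
      ∀ P : Place ℂ K0, Divisorial N P → FreeAt N δ (k • μ0 + ν) P)
    (𝒬 : Set (Place ℂ K0)) (h𝒬 : ∀ P ∈ 𝒬, Divisorial N P)
    (hsec : ∀ (μ : Fin p → ℤ) (f : K0),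
      (∀ P ∈ 𝒬, f = 0 ∨ - ∑ i, (μ i : ℚ) * δ i P ≤ P.ord f) → IsSection N δ μ f)
    (𝒲 : Subgroup (K0 ≃ₐ[ℂ] K0)) (h𝒲 : ∀ φ ∈ 𝒲, Permutes φ 𝒬 ∧ ∃ T, IsPullBack δ 𝒬 φ T)
    (L' : ℕ) (hL' : 1 ≤ L')
    (hden' : ∀ φ ∈ 𝒲, ∀ T, IsPullBack δ 𝒬 φ T → ∀ i j, ∃ b : ℤ,
      (L' : ℝ) * T (Pi.single i 1) j = b) :
    {C | ∃ 𝒬 : Set (Place ℂ K0), 𝒬.Nonempty ∧ (∀ P ∈ 𝒬, Divisorial N P) ∧
      C = freeCone N δ 𝒬}.Finite ∧
    (∃ S : Finset (Fin p → ℝ), (∀ w ∈ S, ∃ μ : Fin p → ℤ,
        (∀ P ∈ 𝒬, FreeAt N δ μ P) ∧ w = rc μ) ∧ freeCone N δ 𝒬 = cone S) ∧
      freeCone N δ 𝒬 ⊆ effCone N δ ∧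
      HasFundDomain {T | ∃ φ ∈ 𝒲, IsPullBack δ 𝒬 φ T} (freeCone N δ 𝒬 ∩ effCone N δ) := by
  have hfg := Run7.h530.FI.fg_desc hg (fun i Q P e h hQ => hδ i Q P e h hQ) hM hint
    (Pool.Agent.Q57.CX.main_cox (N := N) hr hn hN hd hF hs hx0 hbas hm hdiv hz hgen
      (S := fan) ⟨hfan.adm, hfan.full, hfan.cover⟩ hc0 (u := u) hlin (β := β)
      (δ := fun i P => coefficient F d x (c i) (β i) P) (fun _ _ => rfl))
  obtain ⟨μ0, hamp0⟩ := hamp
  have hfin := finite_cones hfg hind hamp0
  exact ⟨hfin, conj_mov hfg hind ⟨μ0, hamp0⟩ h𝒬 hsec (fun φ hφ => (h𝒲 φ hφ).1)
    (fun φ hφ => (h𝒲 φ hφ).2) hL' hden'⟩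

end Pool.Agent.Results.MP_e39d36_ag.ToroidalCovers
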